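import Pool.Agent.Q16.NK.Main

/-!
# Large discrepancy along k-term progressions with small common difference
-/

set_option autoImplicit false

namespace Pool.Agent.Q16.NK

open Finset
open Pool.Agent.H154R5.NK
open scoped Classical

/-- Large k. -/
theorem large (k N : ℕ) (hk : 900 ≤ Real.log k) (hN : 3 * k ^ 5 ≤ N) (F : ℕ → ℤ)
    (hF : ∀ n, 1 ≤ n → n ≤ N → F n = 1 ∨ F n = -1) :
    ∃ a d : ℕ, 1 ≤ a ∧ 1 ≤ d ∧ d ≤ 2 * k * (Nat.sqrt (k^3) + 2) ∧ a + (k-1) * d ≤ N ∧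
      √k + Real.log k / 25 < |((∑ j ∈ range k, F (a + j * d) : ℤ) : ℝ)| := by
  by_contra hcon
  push Not at hcon
  have hk0 : (0:ℝ) < k := by
    by_contra h
    have : (k:ℝ) = 0 := le_antisymm (not_lt.1 h) (Nat.cast_nonneg k)
    rw [this, Real.log_zero] at hk
    linarith
  have hlogk : Real.log k ≤ k - 1 := Real.log_le_sub_one_of_pos hk0
  have hk2 : 2 ≤ k := by
    have : (2:ℝ) ≤ k := by linarith
    exact_mod_cast this
  have hN0 : N ≠ 0 := by
    have : 0 < k ^ 5 := by positivity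
    omega
  have : NeZero N := ⟨hN0⟩
  set f : ZMod N → ℝ := fun x => ((F (x.val + 1) : ℤ) : ℝ) with hf
  have hf2 : ∀ x, f x ^ 2 = 1 := by
    intro x
    have hx := ZMod.val_lt x
    rcases hF (x.val + 1) (by omega) (by omega) with h | h <;> simp [hf, h]
  have hin : ∀ (a : ZMod N) (t : ℕ), 1 ≤ t → t ≤ 2 * k * (Nat.sqrt (k^3) + 2) →
      a.val + (k-1)*t < N →
      |X f k a t| ≤ √k + Real.log k / 25 := by
    intro a t ht ht2 hat
    have h1 := hcon (a.val + 1) t (by omega) ht ht2 (by omega)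
    have h2 : X f k a t = ((∑ j ∈ range k, F (a.val + 1 + j * t) : ℤ) : ℝ) := by
      unfold X
      push_cast
      refine sum_congr rfl fun j hj => ?_
      have hj' := mem_range.1 hj
      have e : a + j * t = ((a.val + j * t : ℕ) : ZMod N) := by
        push_cast; rw [ZMod.natCast_zmod_val]
      have e2 : (a + (j : ZMod N) * t).val = a.val + j * t := by
        rw [e, ZMod.val_natCast]
        apply Nat.mod_eq_of_lt
        have : j * t ≤ (k - 1) * t := Nat.mul_le_mul_right t (by omega)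
        omega
      simp only [hf]
      rw [e2]
      congr 2
      ring
    rw [h2]; exact h1
  -- choice of I
  have hs0 : 0 < √(k:ℝ) := Real.sqrt_pos.2 hk0
  have hsk : √(k:ℝ) ^ 2 = k := Real.sq_sqrt hk0.le
  have hlogs : Real.log k = 2 * Real.log (√(k:ℝ)) := by
    conv_lhs => rw [← hsk]
    rw [Real.log_pow]; norm_num
  have hx : 1 ≤ √(k:ℝ) / (14 * (Real.log k / 25)) := by
    rw [le_div_iff₀ (by linarith), one_mul]
    have : Real.log (√(k:ℝ) / 2) ≤ √(k:ℝ) / 2 - 1 := Real.log_le_sub_one_of_pos (by positivity)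
    rw [Real.log_div hs0.ne' (by norm_num)] at this
    have h2 : Real.log 2 < 0.6931471808 := Real.log_two_lt_d9
    have h3 : Real.log (√(k:ℝ)) ≤ √(k:ℝ) / 2 := by linarith
    rw [hlogs]; linarith
  obtain ⟨I, hI1, hI2⟩ := exists_nat_pow_near hx (show (1:ℝ) < 2 by norm_num)
  have hI3 : (2:ℝ) ^ I * 14 ≤ √(k:ℝ) := by
    rw [le_div_iff₀ (by linarith)] at hI1
    have : (0:ℝ) < 2 ^ I := by positivity
    nlinarith
  have hs1 : 1 ≤ √(k:ℝ) := by
    have : (1:ℝ) ≤ 2 ^ I := one_le_pow₀ (by norm_num)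
    linarith
  have hIk : 2 ^ I ≤ k := by
    have : (2:ℝ) ^ I ≤ k := by
      have : (0:ℝ) < 2 ^ I := by positivity
      nlinarith
    exact_mod_cast this
  have hpos : (0:ℝ) < 2 ^ I := by positivity
  have hmain := main_ineq f hf2 k (Nat.sqrt (k^3) + 2) hk2 (by omega) (√k + Real.log k / 25)
    hin I hIk (by linarith) (by nlinarith)
  exact numeric k N hk hN I hI1 hI2 hmain


/-- Final statement: the bound for all `k`, with a bound for the common difference. -/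
theorem final : ∃ C : ℕ, ∀ k : ℕ, 1 ≤ k → ∀ N : ℕ, C * k ^ 5 ≤ N → ∀ F : ℕ → ℤ,
    (∀ n, 1 ≤ n → n ≤ N → F n = 1 ∨ F n = -1) →
    ∃ a d : ℕ, 1 ≤ a ∧ 1 ≤ d ∧ a + (k-1) * d ≤ N ∧ (d:ℝ) ≤ C * (k:ℝ) ^ (5/2 : ℝ) ∧
      √k + Real.log k / 25 ≤ |((∑ j ∈ range k, F (a + j * d) : ℤ) : ℝ)| := by
  have hv : ∀ k : ℕ, ∃ M : ℕ, 1 ≤ k → ∀ N ≥ M, ∀ F : ℕ → ℤ,
    (∀ n, 1 ≤ n → n ≤ N → F n = 1 ∨ F n = -1) →
    ∃ a d : ℕ, 1 ≤ a ∧ 1 ≤ d ∧ a + (k-1) * d ≤ N ∧ |∑ j ∈ range k, F (a + j * d)| = k := by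
    intro k
    by_cases hk : 1 ≤ k
    · obtain ⟨M, hM⟩ := vdw k hk
      exact ⟨M, fun _ => hM⟩
    · exact ⟨0, fun h => absurd h hk⟩
  choose M hM using hv
  set K := ⌈Real.exp 900⌉₊ with hK
  refine ⟨6 + ∑ k ∈ range K, M k, fun k hk N hN F hF => ?_⟩
  have hk1 : (1:ℝ) ≤ k := by exact_mod_cast hk
  have hk0 : (0:ℝ) < k := by linarith
  have hp1 : (1:ℝ) ≤ (k:ℝ) ^ (5/2 : ℝ) := Real.one_le_rpow hk1 (by norm_num)
  rcases lt_or_ge k K with hkK | hkK
  · have h2 : M k ≤ ∑ k ∈ range K, M k := single_le_sum (fun _ _ => Nat.zero_le _)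
        (mem_range.2 hkK)
    have h3 : 1 ≤ k ^ 5 := Nat.one_le_pow _ _ hk
    have h1 : M k ≤ N := by nlinarith
    have hlog : √(k:ℝ) + Real.log k / 25 ≤ k := by
      have hs1 : 1 ≤ √(k:ℝ) := Real.one_le_sqrt.2 hk1
      have hsk : √(k:ℝ) ^ 2 = k := Real.sq_sqrt hk0.le
      have hlogs : Real.log k = 2 * Real.log (√(k:ℝ)) := by
        conv_lhs => rw [← hsk]
        rw [Real.log_pow]; norm_num
      have h5 : Real.log (√(k:ℝ)) ≤ √(k:ℝ) - 1 := Real.log_le_sub_one_of_pos (by linarith)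
      rw [hlogs]
      nlinarith
    rcases Nat.lt_or_ge k 2 with hk2 | hk2
    · have hk' : k = 1 := by omega
      subst hk'
      obtain ⟨a, d, ha, hd, had, hs⟩ := hM 1 (by norm_num) N h1 F hF
      refine ⟨a, 1, ha, le_rfl, by simpa using had, ?_, ?_⟩
      · push_cast
        have : (0:ℝ) ≤ ∑ k ∈ range K, (M k : ℝ) := sum_nonneg fun _ _ => Nat.cast_nonneg _
        simp only [Nat.cast_one, Real.one_rpow, mul_one]
        linarith
      · have e : ∑ j ∈ range 1, F (a + j * 1) = ∑ j ∈ range 1, F (a + j * d) := by simp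
        rw [e]
        have h4 : |((∑ j ∈ range 1, F (a + j * d) : ℤ) : ℝ)| = (1:ℕ) := by exact_mod_cast hs
        rw [h4]
        simpa using hlog
    · obtain ⟨a, d, ha, hd, had, hs⟩ := hM k hk (M k) le_rfl F
        (fun n h1' h2' => hF n h1' (h2'.trans h1))
      refine ⟨a, d, ha, hd, had.trans h1, ?_, ?_⟩
      · have h6 : d ≤ 6 + ∑ k ∈ range K, M k := by
          have : d ≤ (k - 1) * d := Nat.le_mul_of_pos_left d (by omega)
          omega
        have h7 : (d:ℝ) ≤ ((6 + ∑ k ∈ range K, M k : ℕ) : ℝ) := by exact_mod_cast h6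
        have h8 : (0:ℝ) ≤ ((6 + ∑ k ∈ range K, M k : ℕ) : ℝ) := Nat.cast_nonneg _
        nlinarith
      · have h4 : |((∑ j ∈ range k, F (a + j * d) : ℤ) : ℝ)| = k := by exact_mod_cast hs
        rw [h4]
        exact hlog
  · have hlk : 900 ≤ Real.log k := by
      rw [Real.le_log_iff_exp_le hk0]
      exact (Nat.le_ceil _).trans (by exact_mod_cast hkK)
    have h3 : 3 * k ^ 5 ≤ N := le_trans (Nat.mul_le_mul_right _ (by omega)) hN
    obtain ⟨a, d, ha, hd, hdD, had, hs⟩ := large k N hlk h3 F hF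
    refine ⟨a, d, ha, hd, had, ?_, hs.le⟩
    have h1 : Nat.sqrt (k^3) * Nat.sqrt (k^3) ≤ k ^ 3 := Nat.sqrt_le _
    have hs3 : (Nat.sqrt (k^3) : ℝ) ≤ (k:ℝ) ^ (3/2 : ℝ) := by
      have h2 : ((Nat.sqrt (k^3) : ℝ))^2 ≤ ((k:ℝ) ^ (3/2 : ℝ))^2 := by
        have e : ((k:ℝ) ^ (3/2 : ℝ))^2 = (k:ℝ)^3 := by
          rw [← Real.rpow_natCast, ← Real.rpow_mul hk0.le, ← Real.rpow_natCast]
          norm_num
        rw [e, pow_two]
        exact_mod_cast h1
      exact le_of_sq_le_sq h2 (by positivity)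
    have hp3 : (1:ℝ) ≤ (k:ℝ) ^ (3/2 : ℝ) := Real.one_le_rpow hk1 (by norm_num)
    have e5 : (k:ℝ) * (k:ℝ) ^ (3/2 : ℝ) = (k:ℝ) ^ (5/2 : ℝ) := by
      nth_rewrite 1 [← Real.rpow_one (k:ℝ)]
      rw [← Real.rpow_add hk0]
      norm_num
    have hd2 : (d:ℝ) ≤ 2 * k * ((Nat.sqrt (k^3) : ℝ) + 2) := by exact_mod_cast hdD
    have h9 : (d:ℝ) ≤ 6 * (k:ℝ) ^ (5/2 : ℝ) := by
      calc (d:ℝ) ≤ 2 * k * ((Nat.sqrt (k^3) : ℝ) + 2) := hd2
        _ ≤ 2 * k * (3 * (k:ℝ) ^ (3/2 : ℝ)) := by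
            apply mul_le_mul_of_nonneg_left _ (by positivity)
            linarith
        _ = 6 * (k * (k:ℝ) ^ (3/2 : ℝ)) := by ring
        _ = _ := by rw [e5]
    push_cast
    have h10 : (0:ℝ) ≤ ∑ k ∈ range K, (M k : ℝ) := sum_nonneg fun _ _ => Nat.cast_nonneg _
    nlinarith

end Pool.Agent.Q16.NK
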