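import Pool.Agent.H154R5.NK.Final

/-!
# The main inequality with small common differences

Adapted from `Pool.Agent.H154R5.NK.Main`: only the progressions with common difference at most
`2 * k * D` are used.
-/

set_option autoImplicit false

namespace Pool.Agent.Q16.NK

open Finset
open Pool.Agent.H154R5.NK
open scoped Classical

variable {N : ℕ} [NeZero N]

section
variable (f : ZMod N → ℝ) (hf : ∀ x, f x ^ 2 = 1) (k D : ℕ) (hk : 2 ≤ k) (hD : 2 ≤ D) (l : ℝ)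
  (hin : ∀ (a : ZMod N) (t : ℕ), 1 ≤ t → t ≤ 2 * k * D → a.val + (k-1)*t < N → |X f k a t| ≤ l)

include hf hin in
lemma claimA (t : ℕ) (ht : 1 ≤ t) (ht2 : t ≤ 2 * k * D) :
    ∑ a, (X f k a t) ^ 2 ≤ N * l ^ 2 + ((k-1) * t : ℕ) * (k:ℝ) ^ 2 := by
  have h1 : ∀ a : ZMod N, (X f k a t) ^ 2 ≤ l ^ 2 +
      (if a.val + (k-1)*t < N then 0 else (k:ℝ) ^ 2) := by
    intro a
    split_ifs with h
    · have := hin a t ht ht2 h
      have h2 := pow_le_pow_left₀ (abs_nonneg _) this 2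
      rw [sq_abs] at h2; linarith
    · have := X_abs f hf k a t
      have h2 := pow_le_pow_left₀ (abs_nonneg _) this 2
      rw [sq_abs] at h2
      nlinarith [sq_nonneg l]
  refine (sum_le_sum fun a _ => h1 a).trans ?_
  rw [sum_add_distrib]
  have h3 := bad_sum (N := N) ((k-1)*t) ((k:ℝ)^2) (by positivity)
  simp only [sum_const, card_univ, ZMod.card, nsmul_eq_mul]
  linarith

include hf hk hD hin in
lemma claimB (m : ℕ) (h1 : 1 ≤ m) (h2 : m ≤ 2 * k) : P f D m ≤ N * W D * pm N k D l := by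
  have hW := W_pos D hD
  have hN : (0:ℝ) < N := by exact_mod_cast (NeZero.pos N)
  have hkr : (2:ℝ) ≤ k := by exact_mod_cast hk
  have hDr : (2:ℝ) ≤ D := by exact_mod_cast hD
  have e1 := P2 f hf D k m
  -- upper bound for the left side
  have u1 : ∑ d ∈ Ico 1 D, ((D:ℝ) - d) * ∑ a, (X f k a ((m:ZMod N) * d)) ^ 2 ≤
      W D * (N * l ^ 2 + 2 * k ^ 4 * D) := by
    unfold W
    rw [sum_mul]
    apply sum_le_sum
    intro d hd
    apply mul_le_mul_of_nonneg_left _ (w_nonneg D d hd)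
    have hd' := mem_Ico.1 hd
    have hmd : 1 ≤ m * d := Nat.mul_pos h1 hd'.1
    have := claimA f hf k D l hin (m * d) hmd (Nat.mul_le_mul h2 hd'.2.le)
    have hc : ((m * d : ℕ) : ZMod N) = (m:ZMod N) * d := by push_cast; rfl
    rw [hc] at this
    refine this.trans ?_
    have h3 : (((k-1) * (m * d) : ℕ) : ℝ) ≤ k * ((2 * k) * D) := by
      have : (k-1) * (m * d) ≤ k * ((2 * k) * D) := by
        apply Nat.mul_le_mul (by omega)
        exact Nat.mul_le_mul h2 hd'.2.le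
      exact_mod_cast this
    have h4 : (0:ℝ) ≤ (k:ℝ)^2 := by positivity
    nlinarith [mul_le_mul_of_nonneg_right h3 h4]
  -- lower bound for the sum over j
  have u2 : ((k:ℝ) - 1) * P f D m - (k:ℝ)^2 / 2 * (D * N / 2) ≤
      ∑ j ∈ Ico 1 k, ((k:ℝ) - j) * P f D (j * m) := by
    rw [sum_eq_sum_Ico_succ_bot (by omega : 1 < k)]
    have h5 : -((k:ℝ)^2 / 2 * (D * N / 2)) ≤ ∑ j ∈ Ico (1+1) k, ((k:ℝ) - j) * P f D (j * m) := by
      have h6 : ∑ j ∈ Ico (1+1) k, ((k:ℝ) - j) * (-(D * N / 2)) ≤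
          ∑ j ∈ Ico (1+1) k, ((k:ℝ) - j) * P f D (j * m) := by
        apply sum_le_sum
        intro j hj
        apply mul_le_mul_of_nonneg_left (P_ge f hf D _)
        apply w_nonneg k j
        simp only [mem_Ico] at hj ⊢; omega
      rw [← sum_mul] at h6
      have h7 := gauss_le k (1+1) (by norm_num)
      have h8 : (0:ℝ) ≤ D * N / 2 := by positivity
      nlinarith
    simp only [one_mul, Nat.cast_one] at *
    linarith
  have e2 : (D:ℝ) * N = N * W D * (2 / (D - 1)) := by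
    rw [W_eq D (by omega)]
    have : (D:ℝ) - 1 ≠ 0 := by linarith
    field_simp
  unfold pm
  rw [mul_div_assoc', le_div_iff₀ (by linarith)]
  have e3 : (N:ℝ) * W D * (l ^ 2 - k + 2 * k ^ 4 * D / N + k ^ 2 / (D - 1)) =
      N * W D * (l^2 - k) + W D * (2 * k ^ 4 * D) + (k:ℝ)^2 / 2 * (D * N) := by
    rw [e2]
    have : (D:ℝ) - 1 ≠ 0 := by linarith
    field_simp
  rw [e3]
  nlinarith

include hf hk hD hin in
lemma claimC (h : ℕ) (h1 : 1 ≤ h) (h2 : h ≤ k) :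
    N * W D * (2 * h - 2 * h ^ 2 / (D - 1) - 2 * h ^ 2 * pm N k D l) ≤
    ∑ d ∈ Ico 1 D, ((D:ℝ) - d) * ∑ a, (X f k (a + h * d) d - X f k a d) ^ 2 := by
  have hW := W_pos D hD
  have hN : (0:ℝ) < N := by exact_mod_cast (NeZero.pos N)
  have hDr : (2:ℝ) ≤ D := by exact_mod_cast hD
  have e1 : ∀ d ∈ Ico 1 D, ((D:ℝ) - d) * ∑ a, (X f k (a + h * d) d - X f k a d) ^ 2 =
      2 * (((D:ℝ) - d) * ∑ a, (X f h a (((1:ℕ) : ZMod N) * d)) ^ 2) -
      2 * (((D:ℝ) - d) * ∑ a, (X f h (a + k * d) d) * (X f h a d)) := by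
    intro d _
    have e2 : ∑ a, (X f k (a + h * d) d - X f k a d) ^ 2 =
        2 * (∑ a, (X f h a d) ^ 2) - 2 * ∑ a, (X f h (a + k * d) d) * (X f h a d) := by
      have e3 : ∀ a : ZMod N, (X f k (a + h * d) d - X f k a d) ^ 2 =
          (X f h (a + k * d) d) ^ 2 + (X f h a d) ^ 2 -
            2 * ((X f h (a + k * d) d) * (X f h a d)) := by
        intro a
        rw [X_diff]; ring
      simp_rw [e3]
      rw [sum_sub_distrib, sum_add_distrib, ← mul_sum,
        sum_shift (fun a => (X f h a d) ^ 2) (k * d)]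
      ring
    rw [e2]
    simp only [Nat.cast_one, one_mul]
    ring
  rw [sum_congr rfl e1, sum_sub_distrib, ← mul_sum, ← mul_sum, P2 f hf D h 1, cross f D k h h2]
  have c1 : ∑ i ∈ range h, ∑ j ∈ range h, P f D (k + j - i) ≤
      (h:ℝ) ^ 2 * (N * W D * pm N k D l) := by
    calc ∑ i ∈ range h, ∑ j ∈ range h, P f D (k + j - i)
        ≤ ∑ _i ∈ range h, ∑ _j ∈ range h, N * W D * pm N k D l := by
          refine sum_le_sum fun i hi => sum_le_sum fun j hj => ?_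
          have hi' := mem_range.1 hi
          have hj' := mem_range.1 hj
          exact claimB f hf k D hk hD l hin _ (by omega) (by omega)
      _ = _ := by simp; ring
  have c2 : -((h:ℝ)^2 / 2 * (D * N / 2)) ≤ ∑ j ∈ Ico 1 h, ((h:ℝ) - j) * P f D (j * 1) := by
    have h6 : ∑ j ∈ Ico 1 h, ((h:ℝ) - j) * (-(D * N / 2)) ≤
        ∑ j ∈ Ico 1 h, ((h:ℝ) - j) * P f D (j * 1) := by
      apply sum_le_sum
      intro j hj
      exact mul_le_mul_of_nonneg_left (P_ge f hf D _) (w_nonneg h j hj)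
    rw [← sum_mul] at h6
    have h7 := gauss_le h 1 (by norm_num)
    have h8 : (0:ℝ) ≤ D * N / 2 := by positivity
    nlinarith
  have e2 : (D:ℝ) * N = N * W D * (2 / (D - 1)) := by
    rw [W_eq D (by omega)]
    have : (D:ℝ) - 1 ≠ 0 := by linarith
    field_simp
  have e4 : (h:ℝ)^2 / 2 * (D * N / 2) = N * W D * (h ^ 2 / (D - 1)) / 2 := by
    rw [e2]
    have : (D:ℝ) - 1 ≠ 0 := by linarith
    field_simp
  have e5 : N * W D * (2 * h - 2 * h ^ 2 / (D - 1) - 2 * h ^ 2 * pm N k D l) =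
      2 * (h * N * W D) - 2 * (N * W D * (h ^ 2 / (D - 1))) -
        2 * ((h:ℝ) ^ 2 * (N * W D * pm N k D l)) := by ring
  rw [e5]
  rw [e4] at c2
  linarith

include hf hk hin in
lemma claimD (h : ℕ) (h2 : h ≤ k) (hl : 4 * (h:ℝ) ≤ l) (d : ℕ) (hd : 1 ≤ d) (hdD : d ≤ 2 * k * D) :
    ∑ a : ZMod N, (X f k (a + h * d) d - X f k a d) ^ 2 ≤
    2 * ∑ a : ZMod N, (min (2 * (h:ℝ)) (u f k l a d)) ^ 2 + 8 * k * d * (h:ℝ) ^ 2 := by
  have hX : ∀ a : ZMod N, |X f k (a + h * d) d - X f k a d| ≤ 2 * h := by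
    intro a
    rw [X_diff]
    have a1 := X_abs f hf h (a + k * d) d
    have a2 := X_abs f hf h a d
    calc _ ≤ |X f h (a + k * d) d| + |X f h a d| := abs_sub _ _
      _ ≤ _ := by linarith
  have hp : ∀ a : ZMod N, (X f k (a + h * d) d - X f k a d) ^ 2 ≤
      (min (2 * (h:ℝ)) (u f k l a d)) ^ 2 + (min (2 * (h:ℝ)) (u f k l (a + h * d) d)) ^ 2 +
      (if a.val + (k - 1 + h) * d < N then 0 else 4 * (h:ℝ)^2) := by
    intro a
    split_ifs with hg
    · have g1 : a.val + (k-1) * d < N := by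
        have : (k-1) * d ≤ (k - 1 + h) * d := Nat.mul_le_mul_right d (by omega)
        omega
      have g2 : (a + h * d).val = a.val + h * d := by
        have e : a + h * d = ((a.val + h * d : ℕ) : ZMod N) := by
          push_cast; rw [ZMod.natCast_zmod_val]
        rw [e, ZMod.val_natCast]
        apply Nat.mod_eq_of_lt
        have : h * d ≤ (k - 1 + h) * d := Nat.mul_le_mul_right d (by omega)
        omega
      have g3 : (a + h * d).val + (k-1) * d < N := by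
        rw [g2]
        have : (k - 1 + h) * d = h * d + (k-1) * d := by ring
        omega
      have b0 := hin a d hd hdD g1
      have b1 := hin (a + h * d) d hd hdD g3
      have := path l h _ _ hl (by positivity) b0 b1 (hX a)
      unfold u
      rw [max_eq_right (by linarith), max_eq_right (by linarith)]
      linarith
    · have := pow_le_pow_left₀ (abs_nonneg _) (hX a) 2
      rw [sq_abs] at this
      nlinarith [sq_nonneg (min (2 * (h:ℝ)) (u f k l a d)),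
        sq_nonneg (min (2 * (h:ℝ)) (u f k l (a + h * d) d))]
  refine (sum_le_sum fun a _ => hp a).trans ?_
  rw [sum_add_distrib, sum_add_distrib,
    sum_shift (fun a => (min (2 * (h:ℝ)) (u f k l a d)) ^ 2) (h * d)]
  have h3 := bad_sum (N := N) ((k - 1 + h) * d) (4 * (h:ℝ)^2) (by positivity)
  have h4 : (((k - 1 + h) * d : ℕ) : ℝ) ≤ 2 * k * d := by
    have : (k - 1 + h) * d ≤ 2 * k * d := Nat.mul_le_mul_right d (by omega)
    exact_mod_cast this
  have h5 : (((k - 1 + h) * d : ℕ) : ℝ) * (4 * (h:ℝ)^2) ≤ 8 * k * d * (h:ℝ) ^ 2 := by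
    have := mul_le_mul_of_nonneg_right h4 (show (0:ℝ) ≤ 4 * (h:ℝ)^2 by positivity)
    linarith
  linarith

include hf hin in
lemma claimE (hl : 0 < l) (d : ℕ) (hd : 1 ≤ d) (hdD : d ≤ 2 * k * D) :
    ∑ a : ZMod N, u f k l a d ≤ (l ^ 2 * N - ∑ a, (X f k a d) ^ 2) / l + k ^ 3 * d / l := by
  have hp : ∀ a : ZMod N, u f k l a d ≤ (l ^ 2 - (X f k a d) ^ 2) / l +
      (if a.val + (k - 1) * d < N then 0 else (k:ℝ)^2 / l) := by
    intro a
    split_ifs with hg
    · have b0 := hin a d hd hdD hg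
      unfold u
      rw [max_eq_right (by linarith), add_zero, le_div_iff₀ hl, ← sq_abs (X f k a d)]
      nlinarith [abs_nonneg (X f k a d)]
    · have b1 : u f k l a d ≤ l := by
        unfold u
        apply max_le hl.le
        linarith [abs_nonneg (X f k a d)]
      have := pow_le_pow_left₀ (abs_nonneg _) (X_abs f hf k a d) 2
      rw [sq_abs] at this
      rw [← add_div]
      refine b1.trans ?_
      rw [le_div_iff₀ hl]
      nlinarith
  refine (sum_le_sum fun a _ => hp a).trans ?_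
  rw [sum_add_distrib]
  have h3 := bad_sum (N := N) ((k - 1) * d) ((k:ℝ)^2 / l) (by positivity)
  have h4 : (((k - 1) * d : ℕ) : ℝ) ≤ k * d := by
    have : (k - 1) * d ≤ k * d := Nat.mul_le_mul_right d (by omega)
    exact_mod_cast this
  have h5 : (((k - 1) * d : ℕ) : ℝ) * ((k:ℝ)^2 / l) ≤ k ^ 3 * d / l := by
    have := mul_le_mul_of_nonneg_right h4 (show (0:ℝ) ≤ (k:ℝ)^2 / l by positivity)
    calc _ ≤ _ := this
      _ = _ := by ring
  have h6 : ∑ a : ZMod N, (l ^ 2 - (X f k a d) ^ 2) / l =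
      (l ^ 2 * N - ∑ a, (X f k a d) ^ 2) / l := by
    rw [← sum_div, sum_sub_distrib]
    simp only [sum_const, card_univ, ZMod.card, nsmul_eq_mul]
    ring
  rw [h6]
  linarith

include hf hk hD hin in
lemma claimF (hl : 0 < l) :
    ∑ d ∈ Ico 1 D, ((D:ℝ) - d) * ∑ a : ZMod N, u f k l a d ≤
      N * W D * (((l ^ 2 - k) + k ^ 2 / (D - 1) + k ^ 3 * D / N) / l) := by
  have hW := W_pos D hD
  have hN : (0:ℝ) < N := by exact_mod_cast (NeZero.pos N)
  have hDr : (2:ℝ) ≤ D := by exact_mod_cast hD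
  have h1 : ∑ d ∈ Ico 1 D, ((D:ℝ) - d) * ∑ a : ZMod N, u f k l a d ≤
      ∑ d ∈ Ico 1 D, (((D:ℝ) - d) * (l ^ 2 * N) / l -
        ((D:ℝ) - d) * (∑ a, (X f k a (((1:ℕ) : ZMod N) * d)) ^ 2) / l +
        ((D:ℝ) - d) * (k ^ 3 * D / l)) := by
    apply sum_le_sum
    intro d hd
    have hd' := mem_Ico.1 hd
    have h2 := claimE f hf k D l hin hl d hd'.1 (hd'.2.le.trans (Nat.le_mul_of_pos_left D (by omega)))
    have h3 : (k:ℝ) ^ 3 * d / l ≤ k ^ 3 * D / l := by
      have : (d:ℝ) ≤ D := by exact_mod_cast hd'.2.le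
      gcongr
    have h4 := mul_le_mul_of_nonneg_left (h2.trans (add_le_add_right h3 _)) (w_nonneg D d hd)
    refine h4.trans (le_of_eq ?_)
    simp only [Nat.cast_one, one_mul]
    ring
  refine h1.trans ?_
  rw [sum_add_distrib, sum_sub_distrib, ← sum_div, ← sum_div, ← sum_mul, ← sum_mul,
    P2 f hf D k 1]
  have c2 : -((k:ℝ)^2 / 2 * (D * N / 2)) ≤ ∑ j ∈ Ico 1 k, ((k:ℝ) - j) * P f D (j * 1) := by
    have h6 : ∑ j ∈ Ico 1 k, ((k:ℝ) - j) * (-(D * N / 2)) ≤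
        ∑ j ∈ Ico 1 k, ((k:ℝ) - j) * P f D (j * 1) := by
      apply sum_le_sum
      intro j hj
      exact mul_le_mul_of_nonneg_left (P_ge f hf D _) (w_nonneg k j hj)
    rw [← sum_mul] at h6
    have h7 := gauss_le k 1 (by norm_num)
    have h8 : (0:ℝ) ≤ D * N / 2 := by positivity
    nlinarith
  have e2 : (D:ℝ) * N = N * W D * (2 / (D - 1)) := by
    rw [W_eq D (by omega)]
    have : (D:ℝ) - 1 ≠ 0 := by linarith
    field_simp
  have e4 : (k:ℝ)^2 / 2 * (D * N / 2) = N * W D * (k ^ 2 / (D - 1)) / 2 := by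
    rw [e2]
    have : (D:ℝ) - 1 ≠ 0 := by linarith
    field_simp
  rw [e4] at c2
  change W D * (l ^ 2 * N) / l - _ / l + W D * (k ^ 3 * D / l) ≤ _
  have e6 : (N:ℝ) * W D * (((l ^ 2 - k) + k ^ 2 / (D - 1) + k ^ 3 * D / N) / l) =
      (N * W D * (l^2 - k) + N * W D * (k ^ 2 / (D - 1)) + W D * (k ^ 3 * D)) / l := by
    field_simp
  rw [e6]
  have e7 : W D * (l ^ 2 * N) / l -
      (k * N * W D + 2 * ∑ j ∈ Ico 1 k, ((k:ℝ) - j) * P f D (j * 1)) / l +
      W D * (k ^ 3 * D / l) = (W D * (l ^ 2 * N) -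
      (k * N * W D + 2 * ∑ j ∈ Ico 1 k, ((k:ℝ) - j) * P f D (j * 1)) +
      W D * (k ^ 3 * D)) / l := by ring
  rw [e7]
  apply div_le_div_of_nonneg_right _ hl.le
  linarith

include hf hk hD hin in
/-- The main inequality. -/
theorem main_ineq (I : ℕ) (hIk : 2 ^ I ≤ k) (hl : 4 * (2:ℝ) ^ I ≤ l) (hlk : (k:ℝ) ≤ l ^ 2) :
    2 * (I:ℝ) ≤ 2 * 2 ^ I * (1 / (D - 1) + pm N k D l) +
      16 * (((l ^ 2 - k) + k ^ 2 / (D - 1) + k ^ 3 * D / N) / l) + 8 * 2 ^ I * k * D / N := by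
  have hW := W_pos D hD
  have hN : (0:ℝ) < N := by exact_mod_cast (NeZero.pos N)
  have hDr : (2:ℝ) ≤ D := by exact_mod_cast hD
  have hkr : (2:ℝ) ≤ k := by exact_mod_cast hk
  have hl0 : 0 < l := by
    have : (0:ℝ) < 4 * 2 ^ I := by positivity
    linarith
  have hpm : 0 ≤ pm N k D l := by
    unfold pm
    have h1 : 0 ≤ l ^ 2 - k := by linarith
    have h2 : (0:ℝ) ≤ D - 1 := by linarith
    have h3 : (0:ℝ) ≤ 2 * (k - 1) := by linarith
    positivity
  have hDm : (0:ℝ) ≤ 1 / ((D:ℝ) - 1) := by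
    have h2 : (0:ℝ) ≤ D - 1 := by linarith
    positivity
  have step : ∀ i ∈ range I, N * W D * (2 - 2 * 2 ^ i * (1 / (D - 1) + pm N k D l)) ≤
      ∑ d ∈ Ico 1 D, ((D:ℝ) - d) * (2 * ∑ a : ZMod N,
        (min (2 * 2 ^ i) (u f k l a d)) ^ 2 / 2 ^ i + 8 * k * D * 2 ^ i) := by
    intro i hi
    have hi' := mem_range.1 hi
    have hpow : 2 ^ i ≤ 2 ^ I := Nat.pow_le_pow_right (by norm_num) hi'.le
    have hpowr : (2:ℝ) ^ i ≤ 2 ^ I := pow_le_pow_right₀ (by norm_num) hi'.le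
    have hc := claimC f hf k D hk hD l hin (2^i) Nat.one_le_two_pow (by omega)
    have hp : (0:ℝ) < 2 ^ i := by positivity
    have hd : ∑ d ∈ Ico 1 D, ((D:ℝ) - d) * ∑ a, (X f k (a + (2^i : ℕ) * d) d - X f k a d) ^ 2 ≤
        2 ^ i * ∑ d ∈ Ico 1 D, ((D:ℝ) - d) * (2 * ∑ a : ZMod N,
        (min (2 * 2 ^ i) (u f k l a d)) ^ 2 / 2 ^ i + 8 * k * D * 2 ^ i) := by
      rw [mul_sum]
      apply sum_le_sum
      intro d hd
      have hd' := mem_Ico.1 hd
      have hdD : (d:ℝ) ≤ D := by exact_mod_cast hd'.2.le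
      have h5 := claimD f hf k D hk l hin (2^i) (by omega) (by push_cast; linarith) d hd'.1
        (hd'.2.le.trans (Nat.le_mul_of_pos_left D (by omega)))
      have h6 : 2 * ∑ a : ZMod N, (min (2 * ((2^i : ℕ):ℝ)) (u f k l a d)) ^ 2 +
          8 * k * d * ((2^i:ℕ):ℝ) ^ 2 ≤ 2 ^ i * (2 * ∑ a : ZMod N,
          (min (2 * 2 ^ i) (u f k l a d)) ^ 2 / 2 ^ i + 8 * k * D * 2 ^ i) := by
        have e : ∑ a : ZMod N, (min (2 * (2:ℝ)^i) (u f k l a d)) ^ 2 / 2 ^ i =
            (∑ a : ZMod N, (min (2 * (2:ℝ)^i) (u f k l a d)) ^ 2) / 2 ^ i := by rw [sum_div]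
        rw [e]
        push_cast
        have e2 : (2:ℝ) ^ i * (2 * ((∑ a : ZMod N, (min (2 * (2:ℝ)^i) (u f k l a d)) ^ 2) / 2 ^ i) +
            8 * k * D * 2 ^ i) = 2 * (∑ a : ZMod N, (min (2 * (2:ℝ)^i) (u f k l a d)) ^ 2) +
            8 * k * D * (2 ^ i) ^ 2 := by
          field_simp
        rw [e2]
        gcongr
      calc _ ≤ ((D:ℝ) - d) * (2 ^ i * (2 * ∑ a : ZMod N,
          (min (2 * 2 ^ i) (u f k l a d)) ^ 2 / 2 ^ i + 8 * k * D * 2 ^ i)) :=
            mul_le_mul_of_nonneg_left (h5.trans h6) (w_nonneg D d hd)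
        _ = _ := by ring
    have h7 := hc.trans hd
    have e8 : N * W D * (2 * ((2^i : ℕ):ℝ) - 2 * ((2^i : ℕ):ℝ) ^ 2 / (D - 1) -
        2 * ((2^i : ℕ):ℝ) ^ 2 * pm N k D l) =
        2 ^ i * (N * W D * (2 - 2 * 2 ^ i * (1 / (D - 1) + pm N k D l))) := by
      push_cast; ring
    rw [e8] at h7
    exact le_of_mul_le_mul_left h7 hp
  have hsum := sum_le_sum step
  have geo : ∑ i ∈ range I, (2:ℝ) ^ i ≤ 2 ^ I := by
    have := geom_sum_eq (show (2:ℝ) ≠ 1 by norm_num) I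
    rw [this]; norm_num
  have l1 : N * W D * (2 * (I:ℝ) - 2 * 2 ^ I * (1 / (D - 1) + pm N k D l)) ≤
      ∑ i ∈ range I, N * W D * (2 - 2 * 2 ^ i * (1 / (D - 1) + pm N k D l)) := by
    rw [← mul_sum]
    apply mul_le_mul_of_nonneg_left _ (by positivity)
    rw [sum_sub_distrib]
    have : ∑ i ∈ range I, 2 * (2:ℝ) ^ i * (1 / (D - 1) + pm N k D l) =
        2 * (1 / (D - 1) + pm N k D l) * ∑ i ∈ range I, (2:ℝ) ^ i := by
      rw [mul_sum]
      refine sum_congr rfl fun i _ => ?_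
      ring
    rw [this]
    simp only [sum_const, card_range, nsmul_eq_mul]
    have h9 : 2 * (1 / ((D:ℝ) - 1) + pm N k D l) * ∑ i ∈ range I, (2:ℝ) ^ i ≤
        2 * (1 / ((D:ℝ) - 1) + pm N k D l) * 2 ^ I :=
      mul_le_mul_of_nonneg_left geo (by positivity)
    linarith
  have r1 : ∑ i ∈ range I, ∑ d ∈ Ico 1 D, ((D:ℝ) - d) * (2 * ∑ a : ZMod N,
        (min (2 * 2 ^ i) (u f k l a d)) ^ 2 / 2 ^ i + 8 * k * D * 2 ^ i) ≤
      16 * (∑ d ∈ Ico 1 D, ((D:ℝ) - d) * ∑ a : ZMod N, u f k l a d) +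
        W D * (8 * k * D * 2 ^ I) := by
    rw [sum_comm, mul_sum]
    unfold W
    rw [sum_mul, ← sum_add_distrib]
    apply sum_le_sum
    intro d hd
    rw [← mul_sum]
    have e10 : 16 * (((D:ℝ) - d) * ∑ a : ZMod N, u f k l a d) + ((D:ℝ) - d) * (8 * k * D * 2 ^ I) =
        ((D:ℝ) - d) * (16 * ∑ a : ZMod N, u f k l a d + 8 * k * D * 2 ^ I) := by ring
    rw [e10]
    apply mul_le_mul_of_nonneg_left _ (w_nonneg D d hd)
    rw [sum_add_distrib, ← mul_sum, sum_comm, ← mul_sum]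
    have h11 : ∑ a : ZMod N, ∑ i ∈ range I, (min (2 * 2 ^ i) (u f k l a d)) ^ 2 / 2 ^ i ≤
        8 * ∑ a : ZMod N, u f k l a d := by
      rw [mul_sum]
      apply sum_le_sum
      intro a _
      exact dyadic _ (le_max_left _ _) I
    have h12 : 8 * (k:ℝ) * D * ∑ i ∈ range I, (2:ℝ) ^ i ≤ 8 * k * D * 2 ^ I :=
      mul_le_mul_of_nonneg_left geo (by positivity)
    linarith
  have hF := claimF f hf k D hk hD l hin hl0
  have fin : N * W D * (2 * (I:ℝ) - 2 * 2 ^ I * (1 / (D - 1) + pm N k D l)) ≤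
      N * W D * (16 * (((l ^ 2 - k) + k ^ 2 / (D - 1) + k ^ 3 * D / N) / l) +
        8 * 2 ^ I * k * D / N) := by
    have e13 : N * W D * (16 * (((l ^ 2 - k) + k ^ 2 / (D - 1) + k ^ 3 * D / N) / l) +
        8 * 2 ^ I * k * D / N) = 16 * (N * W D * (((l ^ 2 - k) + k ^ 2 / (D - 1) +
          k ^ 3 * D / N) / l)) + W D * (8 * k * D * 2 ^ I) := by
      field_simp
    rw [e13]
    linarith
  have := le_of_mul_le_mul_left fin (by positivity)
  linarith

end

end Pool.Agent.Q16.NK
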